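import Pool.Agent.N973.P21G.All
import Pool.Agent.N916.AM.Fd
import Pool.Agent.N916.PQ.Main21
import Pool.Agent.N969.Den.Close
import Pool.Agent.N969.Den.Exc21
import Pool.Agent.N969.P15.Glue
import Pool.Agent.N969.P15.QF
import Pool.Agent.N875.X15.ClE

/-!
# All quadratic twists of the curve `X_0(21)`

The rank form of the Birch and Swinnerton-Dyer conjecture for all quadratic twists, with finitely many
rational points and trivial `Ш[2]`, of the curve `E : y² = x (x - 9) (x + 7)` of conductor 21, which has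
no complex multiplication: for every squarefree integer `d`, of either sign and with no condition on `d`
at all, if the twist `E_d` has finitely many rational points and trivial `Ш[2]`, then `L(E_d, 1) ≠ 0`. Let
`η = ∏_{i ≥ 1} (1 - 2^{-i}) = 0.2888...`. The natural density of these `d` among all squarefree integers
is exactly `(137/256) η = 0.1545...`, in the ordering by `|d|` and in the ordering by the absolute value of
the discriminant of `ℚ(√d)`; they all have root number `+1`. Among the `d` with root number `+1` the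
density is `(137/128) η`; it is `(4/3) η = 0.3850...` in the class of the positive `d = 1 mod 3` for which
`7` is not inert in `ℚ(√d)`, and `η` in the complement of this class. For the negative `d` such
that `3` is not split and `7` is not inert in `ℚ(√d)` these `d` are exactly those for which the class
group of `ℚ(√d)` has no element of order four.

Joint work of helpers 877, 809, 969, 970, 971, 972, 973, 974, 975, 218, 402, 575, 637, 816, 855, 871, 875,
878, 916, 958 and others: Gross's formula for the definite quaternion orders of discriminants 3 and 7 and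
level 21, the crossing numbers of real quadratic fields for the positive discriminants, the bilinear and
diagonal identities and their parity, the modular symbols and the L-function, the descent and its
converse, the parity of the descent matrix, the natural density.
-/

set_option autoImplicit false

open Finset Filter

namespace Pool.Agent.Results.MP_696deb_nt.Conductor21

/-- the coefficient `a` of the twist `E_d : y² = x³ + a x + b` of `y² = x (x - 9) (x + 7)` by `d` -/
def A (d : ℤ) : ℤ := -5211 * d ^ 2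

/-- the coefficient `b` of the twist `E_d : y² = x³ + a x + b` of `y² = x (x - 9) (x + 7)` by `d` -/
def B (d : ℤ) : ℤ := -31050 * d ^ 3

/-- the curve `E_d` over `ℚ` -/
def E (d : ℤ) : WeierstrassCurve ℚ :=
  { a₁ := 0, a₂ := 0, a₃ := 0, a₄ := (A d : ℚ), a₆ := (B d : ℚ) }

/-- `E_d(ℚ)` is finite and `Ш(E_d/ℚ)` has no element of order two -/
def RankZeroShaTwo (d : ℤ) : Prop :=
  Finite (E d).toAffine.Point ∧ ∀ x : Pool.Agent.TH841.SH.D.Sha (E d), 2 • x = 0 → x = 0

/-- the root number of the twist `E_d`, for squarefree `d`: the product of the sign of `d`, of `-1` if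
`d` is not `1` modulo `3`, and of `-1` if `d` is `3`, `5` or `6` modulo `7` -/
def rootNumber (d : ℤ) : ℤ := (if d < 0 then -1 else 1) * (if d % 3 = 1 then 1 else -1) *
  (if d % 7 = 3 ∨ d % 7 = 5 ∨ d % 7 = 6 then -1 else 1)

/-- the conclusion of the frozen statement for `y² = x³ + a x + b`, together with the fact that the
order of vanishing and the rank are both `0` -/
def BSDRankZero (a b : ℤ) : Prop :=
  4 * a ^ 3 + 27 * b ^ 2 ≠ 0 ∧
    ∃ F : ℂ → ℂ, Differentiable ℂ F ∧
      (∀ s : ℂ, (3 : ℝ) / 2 < s.re →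
        HasProd
          (fun p : ℕ => open Classical in
            if p.Prime ∧ ¬ ((p : ℤ) ∣ 2 * (-4 * a ^ 3 - 27 * b ^ 2)) then
              (1 - ((p : ℂ) - (Nat.card {q : ZMod p × ZMod p //
                  q.2 ^ 2 = q.1 ^ 3 + (a : ZMod p) * q.1 + (b : ZMod p)} : ℂ))
                  * (p : ℂ) ^ (-s) + (p : ℂ) ^ (1 - 2 * s))⁻¹
            else 1)
          (F s)) ∧
      analyticOrderAt F 1 =
        ((Module.finrank ℤ
          (WeierstrassCurve.Affine.Point
            (WeierstrassCurve.toAffine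
              ({ a₁ := 0, a₂ := 0, a₃ := 0, a₄ := (a : ℚ), a₆ := (b : ℚ) } :
                WeierstrassCurve ℚ))) : ℕ) : ℕ∞) ∧
      Module.finrank ℤ
        (WeierstrassCurve.Affine.Point
          (WeierstrassCurve.toAffine
            ({ a₁ := 0, a₂ := 0, a₃ := 0, a₄ := (a : ℚ), a₆ := (b : ℚ) } :
              WeierstrassCurve ℚ))) = 0

/-- `ℚ(√d)` is imaginary, `3` is not split and `7` is not inert in it -/
def NegClass (d : ℤ) : Prop := d < 0 ∧ d % 3 ≠ 1 ∧ ¬ (d % 7 = 3 ∨ d % 7 = 5 ∨ d % 7 = 6)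

/-- the exceptional class: `d > 0`, `d = 1 mod 3` and `d` is not `3`, `5`, `6` modulo `7` -/
def ExcClass (d : ℤ) : Prop := 0 < d ∧ d % 3 = 1 ∧ ¬ (d % 7 = 3 ∨ d % 7 = 5 ∨ d % 7 = 6)

/-- the class group of `ℚ(√d)` has no element of order four -/
def NoOrderFour (d : ℤ) : Prop :=
  ∀ (K : Type) [Field K] [NumberField K], Module.finrank ℚ K = 2 →
    (∃ s : K, s ^ 2 = (d : K)) →
    ∀ c : ClassGroup (NumberField.RingOfIntegers K), c ^ 4 = 1 → c ^ 2 = 1

/-- `D` is a fundamental discriminant (`1` included) -/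
def Fund (D : ℤ) : Prop := (Squarefree D ∧ D % 4 = 1) ∨
  ∃ m : ℤ, D = 4 * m ∧ Squarefree m ∧ (m % 4 = 2 ∨ m % 4 = 3)

/-- the squarefree integer `d` with `ℚ(√d) = ℚ(√D)` -/
def core (D : ℤ) : ℤ := if D % 2 = 1 then D else D / 4

open Classical in
/-- the number of the squarefree integers `d`, `|d| ≤ X`, with the property `P` -/
noncomputable def count (P : ℤ → Prop) (X : ℕ) : ℕ :=
  ((Icc (-(X : ℤ)) X).filter fun d => Squarefree d ∧ P d).card

open Classical in
/-- the number of the fundamental discriminants `D`, `|D| ≤ X`, for which `core D` has the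
property `P` -/
noncomputable def countDisc (P : ℤ → Prop) (X : ℕ) : ℕ :=
  ((Icc (-(X : ℤ)) X).filter fun D => Fund D ∧ P (core D)).card

open Pool.Agent.N637.P21 (WS Ao Ae crit_ao_S crit_ae_S)
open Pool.Agent.N875.X15 (Fin2)
open Pool.Agent.N916.TE (FD Go)

/-- the squarefree integer `d` with `ℚ(√d) = ℚ(√-n)` -/
def mD (n : ℕ) : ℤ := if n % 2 = 1 then -(n : ℤ) else -((n / 4 : ℕ) : ℤ)

/-- the class of the negative discriminants `-n` -/
def Cl (n : ℕ) : Prop := FD n ∧ n % 3 ≠ 2 ∧ (n % 7 = 0 ∨ n % 7 = 3 ∨ n % 7 = 5 ∨ n % 7 = 6)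

theorem E_eq (d : ℤ) : E d = WS d := rfl

theorem rank_eq (d : ℤ) : RankZeroShaTwo d ↔ Fin2 (WS d) := by
  unfold RankZeroShaTwo Pool.Agent.N875.X15.Fin2
  rw [← E_eq]
  refine and_congr Iff.rfl (forall_congr' fun x => ?_)
  rw [two_nsmul]

theorem bsd_of_rank {a b : ℤ} (h0 : 4 * a ^ 3 + 27 * b ^ 2 ≠ 0)
    (h : Pool.Agent.Y687.RankBSD a b) : BSDRankZero a b := by
  obtain ⟨F, h1, h2, h3, h4⟩ := h
  exact ⟨h0, F, h1, h2, by rw [h3, h4]; rfl, h4⟩

theorem root_of {d : ℤ} (hs : Squarefree d) (h : RankZeroShaTwo d) : rootNumber d = 1 := by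
  by_cases e1 : d = 1
  · subst e1
    norm_num [rootNumber]
  · exact Pool.Agent.N809.D21.parity hs e1 ((rank_eq d).1 h)

theorem mD_neg {n : ℕ} (h : FD n) : mD n < 0 := by
  unfold mD
  rcases h with ⟨h1, h4⟩ | ⟨k, rfl, h1, -⟩
  · rw [if_pos (by omega)]
    omega
  · have := Nat.pos_of_ne_zero h1.ne_zero
    rw [if_neg (by omega)]
    omega

theorem rank_go {n : ℕ} (h : Cl n) : RankZeroShaTwo (mD n) ↔ Go n := by
  rw [rank_eq]
  obtain ⟨h1, h3, h5⟩ := h
  rcases h1 with ⟨hsq, h4⟩ | hE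
  · have ho : n % 2 = 1 := by omega
    have em : mD n = -(n : ℤ) := if_pos ho
    have h6 := crit_ao_S (n := n) ⟨hsq, h4, h3, h5⟩
    rw [em, h6]
    exact ⟨fun h => ⟨fun _ => h, fun h2 => by omega⟩, fun h => h.1 ho⟩
  · have ho : n % 2 = 0 := by
      obtain ⟨k, rfl, -⟩ := hE
      omega
    have em : mD n = -((n / 4 : ℕ) : ℤ) := if_neg (by omega)
    have h6 := crit_ae_S (n := n) ⟨hE, h3, h5⟩
    rw [em, h6]
    exact ⟨fun h => ⟨fun h2 => by omega, fun _ => h⟩, fun h => h.2 ho⟩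

theorem class_go {n : ℕ} (h : Cl n) : NoOrderFour (mD n) ↔ Go n := by
  obtain ⟨h1, h3, h5⟩ := h
  rcases h1 with ⟨hsq, h4⟩ | hE
  · have ho : n % 2 = 1 := by omega
    have h0 : 0 < n := Nat.pos_of_ne_zero hsq.ne_zero
    have em : mD n = -(n : ℤ) := if_pos ho
    have key : ∀ (K : Type) [Field K] [NumberField K], Module.finrank ℚ K = 2 →
        (∃ s : K, s ^ 2 = (mD n : K)) →
        ((∀ c : ClassGroup (NumberField.RingOfIntegers K), c ^ 4 = 1 → c ^ 2 = 1) ↔ Go n) := by
      intro K _ _ h6 h7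
      rw [em] at h7
      push_cast at h7
      rw [Pool.Agent.N875.X15.qc_iff_class hsq h4 K h6 h7, ← Pool.Agent.N875.X15.qc_P15 h0.ne']
      exact ⟨fun h => ⟨fun _ => h, fun h2 => by omega⟩, fun h => h.1 ho⟩
    constructor
    · intro h8
      obtain ⟨K, i1, i2, h6, h7⟩ := Pool.Agent.N969.P15.exists_qf (n := n) h0
      have h9 : ∃ s : K, s ^ 2 = (mD n : K) := by
        rw [em]
        push_cast
        exact h7
      exact (key K h6 h9).1 (h8 K h6 h9)
    · intro h8 K i1 i2 h6 h7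
      exact (key K h6 h7).2 h8
  · have ho : n % 2 = 0 := by
      obtain ⟨k, rfl, -⟩ := hE
      omega
    have h04 : 0 < n / 4 := by
      obtain ⟨k, rfl, h1, -⟩ := hE
      have := Nat.pos_of_ne_zero h1.ne_zero
      omega
    have em : mD n = -((n / 4 : ℕ) : ℤ) := if_neg (by omega)
    have hn4 : n ≠ 4 := by omega
    have key : ∀ (K : Type) [Field K] [NumberField K], Module.finrank ℚ K = 2 →
        (∃ s : K, s ^ 2 = (mD n : K)) →
        ((∀ c : ClassGroup (NumberField.RingOfIntegers K), c ^ 4 = 1 → c ^ 2 = 1) ↔ Go n) := by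
      intro K _ _ h6 h7
      rw [em] at h7
      rw [Int.cast_neg, Int.cast_natCast] at h7
      rw [Pool.Agent.N875.X15.qe_iff_class hE hn4 K h6 h7]
      exact ⟨fun h => ⟨fun h2 => by omega, fun _ => h⟩, fun h => h.2 ho⟩
    constructor
    · intro h8
      obtain ⟨K, i1, i2, h6, h7⟩ := Pool.Agent.N969.P15.exists_qf (n := n / 4) h04
      have h9 : ∃ s : K, s ^ 2 = (mD n : K) := by
        rw [em, Int.cast_neg, Int.cast_natCast]
        exact h7
      exact (key K h6 h9).1 (h8 K h6 h9)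
    · intro h8 K i1 i2 h6 h7
      exact (key K h6 h7).2 h8

theorem neg7 (k : ℕ) :
    ¬ ((-(k : ℤ)) % 7 = 3 ∨ (-(k : ℤ)) % 7 = 5 ∨ (-(k : ℤ)) % 7 = 6) ↔
      (k % 7 = 0 ∨ k % 7 = 3 ∨ k % 7 = 5 ∨ k % 7 = 6) := by
  have h : k % 7 < 7 := Nat.mod_lt _ (by norm_num)
  interval_cases h7 : k % 7 <;> omega

theorem four7 (k : ℕ) : (4 * k % 7 = 0 ∨ 4 * k % 7 = 3 ∨ 4 * k % 7 = 5 ∨ 4 * k % 7 = 6) ↔
    (k % 7 = 0 ∨ k % 7 = 3 ∨ k % 7 = 5 ∨ k % 7 = 6) := by
  have h : k % 7 < 7 := Nat.mod_lt _ (by norm_num)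
  interval_cases h7 : k % 7 <;> omega

theorem cl_of {d : ℤ} (hs : Squarefree d) (h : NegClass d) : ∃ n : ℕ, Cl n ∧ mD n = d := by
  obtain ⟨h0, c3, c5⟩ := h
  have hn : Squarefree d.natAbs := Int.squarefree_natAbs.2 hs
  obtain ⟨k, hk⟩ : ∃ k : ℕ, d.natAbs = k := ⟨_, rfl⟩
  rw [hk] at hn
  have hd : d = -(k : ℤ) := by omega
  subst hd
  have h4 : ¬ k % 4 = 0 := by
    intro h4
    have h5 := hn 2 (by omega)
    rw [Nat.isUnit_iff] at h5
    omega
  by_cases h5 : k % 4 = 3
  · exact ⟨k, ⟨Or.inl ⟨hn, h5⟩, by omega, (neg7 k).1 c5⟩, if_pos (by omega)⟩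
  · refine ⟨4 * k, ⟨Or.inr ⟨k, rfl, hn, by omega⟩, by omega, (four7 k).2 ((neg7 k).1 c5)⟩, ?_⟩
    have em : mD (4 * k) = -((4 * k / 4 : ℕ) : ℤ) := if_neg (by omega)
    rw [em]
    omega

theorem class_iff {d : ℤ} (hs : Squarefree d) (h : NegClass d) :
    RankZeroShaTwo d ↔ NoOrderFour d := by
  obtain ⟨n, h1, h2⟩ := cl_of hs h
  rw [← h2]
  exact (rank_go h1).trans (class_go h1).symm

theorem cl_mD {n : ℕ} (h : FD n) : NegClass (mD n) ↔
    (n % 3 ≠ 2 ∧ (n % 7 = 0 ∨ n % 7 = 3 ∨ n % 7 = 5 ∨ n % 7 = 6)) := by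
  have h0 := mD_neg h
  unfold NegClass
  rcases h with ⟨h1, h4⟩ | ⟨k, rfl, h1, -⟩
  · have em : mD n = -(n : ℤ) := if_pos (by omega)
    rw [em] at h0 ⊢
    rw [neg7]
    constructor
    · rintro ⟨-, h2, h3⟩
      exact ⟨by omega, h3⟩
    · rintro ⟨h2, h3⟩
      exact ⟨h0, by omega, h3⟩
  · have em : mD (4 * k) = -((4 * k / 4 : ℕ) : ℤ) := if_neg (by omega)
    have e4 : 4 * k / 4 = k := by omega
    rw [e4] at em
    rw [em] at h0 ⊢
    rw [neg7, four7]
    constructor
    · rintro ⟨-, h2, h3⟩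
      exact ⟨by omega, h3⟩
    · rintro ⟨h2, h3⟩
      exact ⟨h0, by omega, h3⟩

theorem sq_neg' (d : ℤ) : Squarefree (-d) ↔ Squarefree d := by
  unfold Squarefree
  simp only [dvd_neg]

theorem fund_neg {n : ℕ} : Fund (-(n : ℤ)) ↔ FD n := by
  unfold Fund FD
  constructor
  · rintro (⟨h1, h2⟩ | ⟨m, h1, h2, h3⟩)
    · left
      exact ⟨Int.squarefree_natCast.1 ((sq_neg' _).1 h1), by omega⟩
    · right
      refine ⟨m.natAbs, by omega, Int.squarefree_natAbs.2 h2, by omega⟩
  · rintro (⟨h1, h2⟩ | ⟨k, rfl, h2, h3⟩)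
    · left
      exact ⟨(sq_neg' _).2 (Int.squarefree_natCast.2 h1), by omega⟩
    · right
      exact ⟨-(k : ℤ), by push_cast; ring, (sq_neg' _).2 (Int.squarefree_natCast.2 h2), by omega⟩

theorem core_neg {n : ℕ} (h : FD n) : core (-(n : ℤ)) = mD n := by
  unfold core mD
  rcases h with ⟨h1, h4⟩ | ⟨k, rfl, h1, -⟩
  · rw [if_pos (by omega), if_pos (by omega)]
  · rw [if_neg (by omega), if_neg (by omega)]
    omega

theorem countDisc_neg {P : ℤ → Prop} {Q : ℕ → Prop} [DecidablePred fun n => FD n ∧ Q n]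
    (h0 : ∀ d, P d → d < 0) (hPQ : ∀ n, FD n → (P (mD n) ↔ Q n)) (X : ℕ) :
    countDisc P X = ((Icc 1 X).filter fun n => FD n ∧ Q n).card := by
  classical
  unfold countDisc
  symm
  refine card_bij (fun n _ => -(n : ℤ)) ?_ ?_ ?_
  · intro n hn
    obtain ⟨h1, h2, h3⟩ := mem_filter.1 hn
    rw [mem_Icc] at h1
    exact mem_filter.2 ⟨mem_Icc.2 ⟨by omega, by omega⟩, fund_neg.2 h2, by
      rw [core_neg h2]; exact (hPQ n h2).2 h3⟩
  · intro a _ b _ h
    omega
  · intro D hD
    obtain ⟨h1, h2, h3⟩ := mem_filter.1 hD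
    rw [mem_Icc] at h1
    have h4 := h0 _ h3
    have h5 : D < 0 := by
      unfold core at h4
      split_ifs at h4 <;> omega
    obtain ⟨n, rfl⟩ : ∃ n : ℕ, D = -(n : ℤ) := ⟨D.natAbs, by omega⟩
    have h6 := fund_neg.1 h2
    refine ⟨n, mem_filter.2 ⟨mem_Icc.2 ⟨by omega, by omega⟩, h6, ?_⟩, rfl⟩
    rw [core_neg h6] at h3
    exact (hPQ n h6).1 h3

open Pool.Agent.N919.BS (NS NF)
open Pool.Agent.N809.PQ (Sg21 w21)

theorem count_eq (P Q : ℤ → Prop) (h : ∀ d, Squarefree d → (P d ↔ Q d)) (X : ℕ) :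
    count P X = NS Q X := by
  classical
  unfold count NS
  refine congrArg Finset.card (Finset.ext fun n => ?_)
  refine (Finset.mem_filter).trans (Iff.trans ?_ (Finset.mem_filter).symm)
  refine and_congr_right fun _ => and_congr_right fun hs => h n hs

theorem fund_core {D : ℤ} (h : Fund D) : Squarefree (core D) := by
  rcases h with ⟨h1, h2⟩ | ⟨m, rfl, h1, h2⟩
  · unfold core
    rw [if_pos (by omega)]
    exact h1
  · unfold core
    rw [if_neg (by omega)]
    have : 4 * m / 4 = m := by omega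
    rw [this]
    exact h1

theorem countDisc_eq (P Q : ℤ → Prop) (h : ∀ d, Squarefree d → (P d ↔ Q d)) (X : ℕ) :
    countDisc P X = NF Q X := by
  classical
  unfold countDisc NF
  refine congrArg Finset.card (Finset.ext fun n => ?_)
  refine (Finset.mem_filter).trans (Iff.trans ?_ (Finset.mem_filter).symm)
  refine and_congr_right fun _ => and_congr_right fun hs => h _ (fund_core hs)

theorem sg_iff (d : ℤ) (hs : Squarefree d) (h1 : d ≠ 1) (_ : d ≠ -1) :
    Sg21 d ↔ RankZeroShaTwo d := by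
  rw [rank_eq]
  exact (Pool.Agent.N809.D21.fin2_iff hs h1).symm

theorem dens_of {T : ℕ → ℕ} {c : ℝ}
    (h : Tendsto (fun X : ℕ => (NS Sg21 X : ℝ) / (T X : ℝ)) atTop (nhds c))
    (hT : Tendsto (fun X => (T X : ℝ)) atTop atTop) :
    Tendsto (fun X : ℕ => (count RankZeroShaTwo X : ℝ) / (T X : ℝ)) atTop (nhds c) := by
  have e := count_eq RankZeroShaTwo RankZeroShaTwo fun _ _ => Iff.rfl
  have h1 := Pool.Agent.N969.Den.lim_close (B := NS RankZeroShaTwo) h
    (fun X => Pool.Agent.N969.Den.NS_close sg_iff X)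
    (fun X => Pool.Agent.N969.Den.NS_close (fun d a b c => (sg_iff d a b c).symm) X) hT
  refine h1.congr fun X => ?_
  rw [e]

theorem densF_of {T : ℕ → ℕ} {c : ℝ}
    (h : Tendsto (fun X : ℕ => (NF Sg21 X : ℝ) / (T X : ℝ)) atTop (nhds c))
    (hT : Tendsto (fun X => (T X : ℝ)) atTop atTop) :
    Tendsto (fun X : ℕ => (countDisc RankZeroShaTwo X : ℝ) / (T X : ℝ)) atTop (nhds c) := by
  have e := countDisc_eq RankZeroShaTwo RankZeroShaTwo fun _ _ => Iff.rfl
  have h1 := Pool.Agent.N969.Den.lim_close (B := NF RankZeroShaTwo) h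
    (fun X => Pool.Agent.N969.Den.NF_close sg_iff X)
    (fun X => Pool.Agent.N969.Den.NF_close (fun d a b c => (sg_iff d a b c).symm) X) hT
  refine h1.congr fun X => ?_
  rw [e]

theorem hasProd_eta : HasProd (fun i : ℕ => 1 - (1 / 2 : ℝ) ^ (i + 1)) Pool.Agent.N916.GB.eta := by
  have h : Multipliable fun i : ℕ => 1 + -((1 / 2 : ℝ) ^ (i + 1)) := by
    apply multipliable_one_add_of_summable
    have h1 : Summable fun i : ℕ => (1 / 2 : ℝ) ^ i * (1 / 2) :=
      (summable_geometric_of_lt_one (by norm_num) (by norm_num)).mul_right _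
    refine h1.congr fun i => ?_
    rw [norm_neg, Real.norm_of_nonneg (by positivity), pow_succ]
  have h3 := h.hasProd
  have e : (fun i : ℕ => 1 + -((1 / 2 : ℝ) ^ (i + 1))) = fun i : ℕ => 1 - (1 / 2 : ℝ) ^ (i + 1) := by
    funext i
    ring
  rw [e] at h3
  exact h3

theorem top_root : Tendsto (fun X => (NS (fun d => w21 d = 1) X : ℝ)) atTop atTop := by
  have h := Pool.Agent.N916.PQ.half_NS Pool.Agent.N809.Red21.hf21
  have e : (fun d => Pool.Agent.N809.Red21.f21 d = true) = fun d => w21 d = 1 :=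
    funext fun d => propext (Pool.Agent.N809.Red21.f21_iff d)
  rw [e] at h
  have h1 := Filter.Tendsto.pos_mul_atTop (by norm_num : (0 : ℝ) < 1 / 2) h
    Pool.Agent.N969.Den.NS_top
  refine h1.congr' ?_
  filter_upwards [Pool.Agent.N916.PQ.NS_ne] with X hX
  rw [div_mul_cancel₀ _ hX]

theorem exc_eq : (fun d => Pool.Agent.N809.Red21.fD d = true) = ExcClass :=
  funext fun d => propext (Pool.Agent.N809.Red21.fD_iff d)

theorem top_exc : Tendsto (fun X => (NS ExcClass X : ℝ)) atTop atTop := by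
  have h := Pool.Agent.N916.PQ.L21.lim_NS Pool.Agent.N916.PQ.L21.limD
    Pool.Agent.N916.PQ.L21.limD'
  rw [exc_eq] at h
  have hd := Pool.Agent.N916.PQ.L21.dl84
  have h1 := Filter.Tendsto.pos_mul_atTop (by positivity) h tendsto_natCast_atTop_atTop
  refine h1.congr' ?_
  filter_upwards [eventually_ge_atTop 1] with X hX
  have : (X : ℝ) ≠ 0 := by
    have : 0 < X := hX
    positivity
  rw [div_mul_cancel₀ _ this]

theorem dens_exc : Tendsto (fun X : ℕ => (count (fun d => ExcClass d ∧ RankZeroShaTwo d) X : ℝ) /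
    (count ExcClass X : ℝ)) atTop (nhds (4 / 3 * Pool.Agent.N916.GB.eta)) := by
  have h := Pool.Agent.N969.Den.lim_close (A := NS fun d => ExcClass d ∧ Sg21 d)
    (B := NS fun d => ExcClass d ∧ RankZeroShaTwo d) (T := NS ExcClass)
    Pool.Agent.N916.PQ.L21.ex21_sf
    (fun X => Pool.Agent.N969.Den.NS_close
      (fun d a b c => and_congr_right fun _ => sg_iff d a b c) X)
    (fun X => Pool.Agent.N969.Den.NS_close
      (fun d a b c => and_congr_right fun _ => (sg_iff d a b c).symm) X) top_exc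
  refine h.congr fun X => ?_
  rw [count_eq (fun d => ExcClass d ∧ RankZeroShaTwo d) _ fun _ _ => Iff.rfl,
    count_eq ExcClass _ fun _ _ => Iff.rfl]

theorem dens_excF : Tendsto (fun X : ℕ =>
    (countDisc (fun d => ExcClass d ∧ RankZeroShaTwo d) X : ℝ) /
    (countDisc ExcClass X : ℝ)) atTop (nhds (4 / 3 * Pool.Agent.N916.GB.eta)) := by
  have hT : Tendsto (fun X => (NF ExcClass X : ℝ)) atTop atTop := by
    have h0 := Pool.Agent.N969.Den.top_excF
    rwa [exc_eq] at h0
  have h := Pool.Agent.N969.Den.lim_close (A := NF fun d => ExcClass d ∧ Sg21 d)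
    (B := NF fun d => ExcClass d ∧ RankZeroShaTwo d) (T := NF ExcClass)
    Pool.Agent.N969.Den.ex21_fd
    (fun X => Pool.Agent.N969.Den.NF_close
      (fun d a b c => and_congr_right fun _ => sg_iff d a b c) X)
    (fun X => Pool.Agent.N969.Den.NF_close
      (fun d a b c => and_congr_right fun _ => (sg_iff d a b c).symm) X) hT
  refine h.congr fun X => ?_
  rw [countDisc_eq (fun d => ExcClass d ∧ RankZeroShaTwo d) _ fun _ _ => Iff.rfl,
    countDisc_eq ExcClass _ fun _ _ => Iff.rfl]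

theorem top_rootF : Tendsto (fun X => (NF (fun d => w21 d = 1) X : ℝ)) atTop atTop := by
  have h := Pool.Agent.N916.PQ.half_NF Pool.Agent.N809.Red21.hf21
  have e : (fun d => Pool.Agent.N809.Red21.f21 d = true) = fun d => w21 d = 1 :=
    funext fun d => propext (Pool.Agent.N809.Red21.f21_iff d)
  rw [e] at h
  have h1 := Filter.Tendsto.pos_mul_atTop (by norm_num : (0 : ℝ) < 1 / 2) h
    Pool.Agent.N969.Den.NF_top
  refine h1.congr' ?_
  filter_upwards [Pool.Agent.N916.PQ.NF_ne] with X hX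
  rw [div_mul_cancel₀ _ hX]

/-- the residues modulo `21` -/
def R21 : Finset ℕ :=
  (range 21).filter fun a => a % 3 ≠ 2 ∧ (a % 7 = 0 ∨ a % 7 = 3 ∨ a % 7 = 5 ∨ a % 7 = 6)

theorem mem_R21 (n : ℕ) : n % 21 ∈ R21 ↔
    n % 3 ≠ 2 ∧ (n % 7 = 0 ∨ n % 7 = 3 ∨ n % 7 = 5 ∨ n % 7 = 6) := by
  unfold R21
  rw [mem_filter, mem_range]
  omega

theorem result :
    (∀ d : ℤ, Squarefree d → RankZeroShaTwo d → rootNumber d = 1 ∧ BSDRankZero (A d) (B d)) ∧
    (∃ η : ℝ, HasProd (fun i : ℕ => 1 - (1 / 2 : ℝ) ^ (i + 1)) η ∧ 0.2887 < η ∧ η < 0.2889 ∧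
      Tendsto (fun X : ℕ => (count RankZeroShaTwo X : ℝ) / (count (fun _ => True) X : ℝ))
        atTop (nhds (137 / 256 * η)) ∧
      Tendsto (fun X : ℕ => (countDisc RankZeroShaTwo X : ℝ) / (countDisc (fun _ => True) X : ℝ))
        atTop (nhds (137 / 256 * η)) ∧
      Tendsto (fun X : ℕ => (count RankZeroShaTwo X : ℝ) /
        (count (fun d => rootNumber d = 1) X : ℝ)) atTop (nhds (137 / 128 * η)) ∧
      Tendsto (fun X : ℕ => (countDisc RankZeroShaTwo X : ℝ) /
        (countDisc (fun d => rootNumber d = 1) X : ℝ)) atTop (nhds (137 / 128 * η)) ∧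
      Tendsto (fun X : ℕ => (count (fun d => ExcClass d ∧ RankZeroShaTwo d) X : ℝ) /
        (count ExcClass X : ℝ)) atTop (nhds (4 / 3 * η)) ∧
      Tendsto (fun X : ℕ => (countDisc (fun d => ExcClass d ∧ RankZeroShaTwo d) X : ℝ) /
        (countDisc ExcClass X : ℝ)) atTop (nhds (4 / 3 * η)) ∧
      Tendsto (fun X : ℕ => (countDisc (fun d => NegClass d ∧ RankZeroShaTwo d) X : ℝ) /
        (countDisc NegClass X : ℝ)) atTop (nhds η)) ∧
    ∀ d : ℤ, Squarefree d → NegClass d → (RankZeroShaTwo d ↔ NoOrderFour d) := by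
  classical
  refine ⟨fun d hs h => ⟨root_of hs h, ?_⟩, ⟨Pool.Agent.N916.GB.eta, hasProd_eta,
    Pool.Agent.N916.GB.eta_bounds.1, Pool.Agent.N916.GB.eta_bounds.2, ?_, ?_, ?_, ?_, ?_, ?_, ?_⟩,
    fun d hs h => class_iff hs h⟩
  · have h1 := Pool.Agent.N973.P21G.rank21 hs ((rank_eq d).1 h)
    refine bsd_of_rank ?_ h1
    have e : 4 * (A d) ^ 3 + 27 * (B d) ^ 2 = -539978068224 * d ^ 6 := by
      unfold A B
      ring
    exact e.trans_ne (mul_ne_zero (by norm_num) (pow_ne_zero 6 hs.ne_zero))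
  · have h := dens_of Pool.Agent.N916.PQ.L21.sf21 Pool.Agent.N969.Den.NS_top
    refine h.congr fun X => ?_
    rw [count_eq (fun _ => True) (fun _ => True) fun _ _ => Iff.rfl]
  · have h := densF_of Pool.Agent.N916.PQ.L21.fd21 Pool.Agent.N969.Den.NF_top
    refine h.congr fun X => ?_
    rw [countDisc_eq (fun _ => True) (fun _ => True) fun _ _ => Iff.rfl]
  · have h := dens_of Pool.Agent.N916.PQ.L21.rt21_sf top_root
    refine h.congr fun X => ?_
    rw [count_eq (fun d => rootNumber d = 1) (fun d => w21 d = 1) fun _ _ => Iff.rfl]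
  · have h := densF_of Pool.Agent.N916.PQ.L21.rt21_fd top_rootF
    refine h.congr fun X => ?_
    rw [countDisc_eq (fun d => rootNumber d = 1) (fun d => w21 d = 1) fun _ _ => Iff.rfl]
  · exact dens_exc
  · exact dens_excF
  · have h := Pool.Agent.N916.AM.density_mod (m := 21) (by norm_num) (R := R21) (n₀ := 3)
      Nat.prime_three.squarefree (by norm_num) ((mem_R21 3).2 (by norm_num))
    refine h.congr fun X => congrArg₂ (fun a b : ℕ => (a : ℝ) / (b : ℝ)) ?_ ?_
    · refine Eq.trans ?_ (countDisc_neg (Q := fun n => n % 21 ∈ R21 ∧ Go n) (fun d h => h.1.1)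
        (fun n hn => ?_) X).symm
      · rfl
      constructor
      · rintro ⟨h1, h2⟩
        have h3 := (cl_mD hn).1 h1
        exact ⟨(mem_R21 n).2 h3, (rank_go ⟨hn, h3⟩).1 h2⟩
      · rintro ⟨h1, h2⟩
        have h3 := (mem_R21 n).1 h1
        exact ⟨(cl_mD hn).2 h3, (rank_go ⟨hn, h3⟩).2 h2⟩
    · refine Eq.trans ?_ (countDisc_neg (Q := fun n => n % 21 ∈ R21) (fun d h => h.1)
        (fun n hn => (cl_mD hn).trans (mem_R21 n).symm) X).symm
      rfl

end Pool.Agent.Results.MP_696deb_nt.Conductor21
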